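import Pool.Agent.MP_f8c24f_lc.Codes
import Pool.Agent.MP_f8c24f_lc.Faces

/-!
# Partially disjoint paths with terminals on three faces: NP-hardness
-/

open Pool.Agent.MP_f8c24f_lc

namespace Pool.Agent.Results.MP_f8c24f_lc.ThreeFacesHard

/-- For every `p ≥ 3`, the partially disjoint paths problem in directed planar graphs is NP-hard
on the instances all of whose terminals lie on the boundaries of at most `p` faces. (The codes of
instances that are used here are faithful: different instances have different codes.) -/
theorem result : Function.Injective Instance.code ∧ ∀ p : ℕ, 3 ≤ p → NPHardOnFaces p := by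
  refine ⟨code_injective, fun p hp L hL => ?_⟩
  obtain ⟨g, hg, hgL⟩ := Pool.Agent.H66.cook_levin (L := L) hL
  refine ⟨fun x => mkInst (g x), ?_, fun x => ⟨isPlane_mkInst _, isProper_mkInst _,
    termsDistinct_mkInst _, onFaces_mkInst _ p hp, ?_⟩⟩
  · exact tm2_congr (fun x => (code_mkInst (g x)).symm)
      (Pool.Agent.H66.PolyTime.tm2_raw (pt_comps.comp hg))
  · rw [hgL x]
    exact (solvable_iff (g x)).symm

end Pool.Agent.Results.MP_f8c24f_lc.ThreeFacesHard
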